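import Pool.Agent.Q39.BP.Main

set_option autoImplicit false

/-!
# The Bates-Peschke symplectic form is induced from the standard one by a self-immersion of `ℝ⁴`

The definitions are in `Pool.Agent.Q39.BP.Defs`.

Write `λ = u₁ α₁ + u₂ α₂`, where `u₁`, `u₂` are functions of `s₁ = r₁²` and `s₂ = r₂²`. It suffices to
find functions `X_j`, `Y_j` with `dX_j ∧ dY_j = -d(u_j α_j)` for `j = 1, 2`. Where `s_j < 1/2` (and
`|f| < 1/5`) one has `u_j > 0`, and `√(2 u_j) (x_j, -y_j)` does it. Where `s_j > 2/5` one takes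
`G(s_j u_j, θ_j)` with a smooth map `G : ℝ × ℝ/2π → ℝ²` with the Jacobian determinant `-1` which is
`√(2p) (cos θ, -sin θ)` for large `p` (`exists_model`, here `s_j u_j` may be negative). The two maps
agree for `2/5 < s_j < 1/2`. If `ω` is nondegenerate on `U_ε`, then `ε ≤ 1/5` (`eps_le`).
-/

namespace Pool.Agent.Results.MP_966fbb_gt.SelfImmersion

open Pool.Agent.Q39.BP
open scoped ContDiff

/-- **Positive answer to Q1.** There are `ε > 0` for which `ω` is nondegenerate on the shell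
`U_ε`. For every such `ε` the form `ω` is the pull-back of the standard form `ω₀` by a smooth
immersion `ψ : U_ε → ℝ⁴`, and for every `x` in `S³ \ L` it is, on `V`, the pull-back of `ω₀` by a smooth
immersion `ψ : V → ℝ⁴`. -/
theorem result :
    (∃ ε : ℝ, 0 < ε ∧ ∀ p ∈ Shell ε, NondegenerateAt p) ∧
    ∀ ε : ℝ, 0 < ε → (∀ p ∈ Shell ε, NondegenerateAt p) →
      (∃ ψ : R4 → R4, ContDiffOn ℝ ∞ ψ (Shell ε) ∧
        ∀ p ∈ Shell ε, Function.Injective (fderiv ℝ ψ p) ∧
          ∀ v w : R4, omega0 (fderiv ℝ ψ p v) (fderiv ℝ ψ p w) = omega p v w) ∧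
      ∀ x ∈ S3 \ L, ∃ ψ : R4 → R4, ContDiffOn ℝ ∞ ψ (V ε x) ∧
        ∀ p ∈ V ε x, Function.Injective (fderiv ℝ ψ p) ∧
          ∀ v w : R4, omega0 (fderiv ℝ ψ p v) (fderiv ℝ ψ p w) = omega p v w := by
  refine ⟨exists_eps, fun ε _ h => ⟨main h, fun x _ => ?_⟩⟩
  obtain ⟨ψ, h1, h2⟩ := main h
  exact ⟨ψ, h1.mono fun p hp => hp.1, fun p hp => h2 p hp.1⟩

end Pool.Agent.Results.MP_966fbb_gt.SelfImmersion
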